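import Pool.Agent.K3h39.HT.Main

/-!
# The parity conjecture for the quadratic twists of an abelian variety over multiquadratic fields

Let `A` be an abelian variety over a number field `k` and `V` a finite group of square classes of
`k`. For `a` in `V` let `A_a` be the quadratic twist of `A` by `a`. For a linearly independent
family `b = (b_1, …, b_m)` of elements of `V` let `K_b = k(√b_1, …, √b_m)`, of degree `2 ^ m`. The
share of the `(a, b)` for which the parity conjecture fails (holds) for `A_a` over `K_b` is
`failShare T m` (`holdShare T m`), normalised by the number `|V| ^ (m + 1)` of all `(a, b)`. Here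
`T : TwistData V` are the ranks and the root numbers. We prove:

* `failShare T (m + 1) ≤ 2 * failShare T m * (1 - failShare T m)`, so with `p = failShare T 0`,
  the share of the twists for which the conjecture fails over `k`, the share is at most
  `(1 - (1 - 2 p) ^ (2 ^ m)) / 2` for each `m`;
* for `m ≥ 1` the conjecture fails for at most one half and holds for at least
  `1 / 2 - 2 ^ m / |V|` of the pairs;
* if for some `m ≥ 1` it holds for all twists over all fields `K_b` of degree `2 ^ m`, then it holds
  over `k` for all twists, or it fails over `k` for at least the share `1 / 2 ^ (m - 1)` of them.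

The sign of the failure of the conjecture for `A_a` over `K_b` is the product of the signs for
`A_(a + u)` over `k`, `u` in the span of `b`. So the sum of these signs over all `(a, b)` is a power
of a Gowers norm, which is not negative, and the last statement is the bound for the minimum
distance of the Reed-Muller codes.
-/

set_option autoImplicit false

namespace Pool.Agent.Results.MP_ac3185_nt.HalfOfTwists

open Pool.Agent.K3h39.HT

universe u

/-- **Half of the twists over multiquadratic fields satisfy the parity conjecture.** -/
theorem result {V : Type u} [AddCommGroup V] [Module (ZMod 2) V] [Finite V] (T : TwistData V) :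
    (∀ m : ℕ, failShare T (m + 1) ≤ 2 * failShare T m * (1 - failShare T m)) ∧
    (∀ m : ℕ, failShare T m ≤ (1 - (1 - 2 * failShare T 0) ^ (2 ^ m)) / 2) ∧
    (∀ m : ℕ, 1 ≤ m →
      failShare T m ≤ 1 / 2 ∧ 1 / 2 - 2 ^ m / (Nat.card V : ℚ) ≤ holdShare T m) ∧
    ∀ m : ℕ, 1 ≤ m → (∀ x, ¬ Fails T m x) →
      (∀ a, Parity T a ⊥) ∨ (1 / 2 : ℚ) ^ (m - 1) ≤ failShare T 0 := by
  classical
  have : Fintype V := Fintype.ofFinite V
  have key : ∀ m : ℕ, 1 ≤ m → failShare T m ≤ 1 / 2 := by
    intro m hm
    obtain ⟨k, rfl⟩ : ∃ k, m = k + 1 := ⟨m - 1, by omega⟩
    have := share_succ T k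
    nlinarith [sq_nonneg (1 - 2 * failShare T k)]
  refine ⟨fun m => ?_, fun m => ?_, fun m hm => ⟨key m hm, ?_⟩, fun m hm h => ?_⟩
  · have := share_succ T m
    nlinarith
  · have := share_pow T m
    linarith
  · have h1 := hold_ge T m
    have h2 := key m hm
    rw [Nat.card_eq_fintype_card]
    linarith
  · obtain ⟨k, rfl⟩ : ∃ k, m = k + 1 := ⟨m - 1, by omega⟩
    exact rm_share T k h

end Pool.Agent.Results.MP_ac3185_nt.HalfOfTwists
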