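import Mathlib
import Pool.Agent.K3h18.PQ.Prime
import Pool.Agent.Y667.OG.Prod
import Pool.Agent.Y667.RP.Disc
import Pool.Agent.Y388.QK.Deg
import Pool.Agent.W672.FK.Lowf
import Pool.Agent.W307.RT.Tors

/-!
# The parity conjecture over towers of number fields of odd degree, for products of elliptic curves
with arbitrary 2-Selmer ranks

All `g`-tuples of elliptic curves over `ℚ` with full rational 2-torsion, ordered by the naive height or
by the absolute value of the minimal discriminant, `A = E₁ × ... × E_g`. For all `r_1, ..., r_g ≥ 0` a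
positive proportion of the tuples (positive lower density) has the following property: the 2-Selmer
group of `E_i` over `ℚ` has order `2 ^ (r_i + 2)`, and over EVERY number field `K` of the class `FromQ`
the product of the local root numbers of `A` is `(-1) ^ (r_1 + ... + r_g)` and `rk A(K)` has the parity
of `rk A(ℚ)`, `0 ≤ rk A(ℚ) ≤ r_1 + ... + r_g`. If all `r_i` are zero, then `rk A(ℚ) = 0` and the parity
conjecture holds for `A` over all these fields.

The class `FromQ` is generated from `ℚ` by the Galois extensions of odd degree, the extensions `K / M`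
of prime degree `p` which are contained in a Galois extension `L / M` such that `[L : K]` divides
`(p - 1) / 2` (for example the extensions with dihedral Galois closure, `p ≡ 1 mod 4`), and the parity
pairs of subgroups of Galois groups.
-/

namespace Pool.Agent.Results.MP_ac3185_nt.PrimeDegreeFields

open Finset Filter Topology NumberField

/-- the curve `y² = x³ + A x + B` over `ℚ` -/
def E (A B : ℤ) : WeierstrassCurve ℚ := ⟨0, 0, 0, (A : ℚ), (B : ℚ)⟩

/-- the absolute value of the minimal discriminant of an elliptic curve `W` over `ℚ`: the smallest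
absolute value of the discriminant of a Weierstrass equation `V` with integer coefficients which is
isomorphic to `W` over `ℚ` -/
noncomputable def minDisc (W : WeierstrassCurve ℚ) : ℕ :=
  sInf {n : ℕ | ∃ (V : WeierstrassCurve ℤ) (C : WeierstrassCurve.VariableChange ℚ),
    C • W = V.map (Int.castRingHom ℚ) ∧ n = V.Δ.natAbs}

/-- the naive height of `y² = x³ + A x + B` is at most `Z` -/
def HeightLe (c : ℤ × ℤ) (Z : ℕ) : Prop := 4 * |c.1| ^ 3 ≤ Z ∧ 27 * c.2 ^ 2 ≤ Z

/-- the minimal discriminant of `y² = x³ + A x + B` is at most `Z` in absolute value -/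
def DiscLe (c : ℤ × ℤ) (Z : ℕ) : Prop := minDisc (E c.1 c.2) ≤ Z

/-- The pairs `(A, B)` of integers such that `4 A³ + 27 B² ≠ 0`, there is no prime `p` with
`p⁴ ∣ A` and `p⁶ ∣ B`, `Z/2 x Z/2` embeds in the group of the rational points of
`y² = x³ + A x + B`, and the size (`HeightLe` or `DiscLe`) is at most `Z`. Every elliptic curve over
`ℚ` with full rational 2-torsion is isomorphic to `E A B` for exactly one pair with the first three
properties. -/
def Fam (I : ℤ × ℤ → ℕ → Prop) (Z : ℕ) : Set (ℤ × ℤ) :=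
  {c : ℤ × ℤ | 4 * c.1 ^ 3 + 27 * c.2 ^ 2 ≠ 0 ∧
    (∀ p : ℕ, p.Prime → ¬ ((p : ℤ) ^ 4 ∣ c.1 ∧ (p : ℤ) ^ 6 ∣ c.2)) ∧
    (∃ f : ZMod 2 × ZMod 2 →+ (E c.1 c.2).toAffine.Point, Function.Injective f) ∧ I c Z}

/-- the `g`-tuples of curves of size at most `Z` -/
def Tuples (I : ℤ × ℤ → ℕ → Prop) (g Z : ℕ) : Set (Fin g → ℤ × ℤ) := {c | ∀ i, c i ∈ Fam I Z}

/-- the proportion of the tuples of `S` among the tuples of curves of size at most `Z` -/
noncomputable def proportion (I : ℤ × ℤ → ℕ → Prop) (g : ℕ) (S : Set (Fin g → ℤ × ℤ)) (Z : ℕ) : ℝ :=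
  ((Tuples I g Z ∩ S).ncard : ℝ) / (Tuples I g Z).ncard

lemma FamH_eq (H : ℕ) : Fam HeightLe H = (Pool.Agent.W307.RT.Cv 2 H : Set (ℤ × ℤ)) := by
  classical
  ext c
  have h : Pool.Agent.W307.RT.HasT 2 (Pool.Agent.W307.RT.Sh c.1 c.2) ↔
    ∃ f : ZMod 2 × ZMod 2 →+ (E c.1 c.2).toAffine.Point, Function.Injective f :=
    Pool.Agent.W307.RT.tors_iff
  unfold Fam HeightLe Pool.Agent.W307.RT.Cv
  rw [Set.mem_ofPred_eq, mem_coe, mem_filter, h, mem_product, mem_Icc, mem_Icc]
  constructor
  · rintro ⟨h1, h2, h3, h4, h5⟩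
    refine ⟨⟨?_, ?_⟩, h1, h4, h5, h2, h3⟩
    · rw [← abs_le]
      have h0 := abs_nonneg c.1
      rcases eq_or_lt_of_le h0 with h6 | h6
      · rw [← h6]; positivity
      · have : 1 ≤ |c.1| := h6
        nlinarith [mul_nonneg h0 h0, mul_self_nonneg (|c.1| - 1)]
    · rw [← abs_le]
      have h0 := abs_nonneg c.2
      rw [← sq_abs] at h5
      rcases eq_or_lt_of_le h0 with h6 | h6
      · rw [← h6]; positivity
      · have : 1 ≤ |c.2| := h6
        nlinarith
  · rintro ⟨-, h1, h4, h5, h2, h3⟩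
    exact ⟨h1, h2, h3, h4, h5⟩

lemma FamD_eq (D : ℕ) : Fam DiscLe D = (Pool.Agent.TH344.DS.Dv D : Set (ℤ × ℤ)) := by
  classical
  have h0 : Fam DiscLe D = Pool.Agent.W307.RS.DvS 2 D := by
    ext c
    have h : Pool.Agent.W307.RT.HasT 2 (Pool.Agent.W307.RT.Sh c.1 c.2) ↔
        ∃ f : ZMod 2 × ZMod 2 →+ (E c.1 c.2).toAffine.Point, Function.Injective f :=
      Pool.Agent.W307.RT.tors_iff
    unfold Fam Pool.Agent.W307.RS.DvS
    rw [Set.mem_ofPred_eq, Set.mem_ofPred_eq, h]
    exact Iff.rfl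
  rw [h0]
  unfold Pool.Agent.TH344.DS.Dv
  rw [dif_pos (Pool.Agent.TH344.DS.excd.1 D), Set.Finite.coe_toFinset]

/-- The number of these curves tends to infinity (ordering by height). -/
lemma tendstoH : Tendsto (fun Z : ℕ => (Fam HeightLe Z).ncard) atTop atTop := by
  simp only [FamH_eq, Set.ncard_coe_finset]
  exact Pool.Agent.W307.RT.tendsto_of_low Pool.Agent.W672.FK.lowf

/-- The number of these curves tends to infinity (ordering by the minimal discriminant). -/
lemma tendstoD : Tendsto (fun Z : ℕ => (Fam DiscLe Z).ncard) atTop atTop := by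
  have h1 := Pool.Agent.W307.RT.tendsto_of_low Pool.Agent.W672.FK.lowf
  have h2 : Tendsto (fun D : ℕ => (Pool.Agent.W307.RT.Cv 2 (D / 32)).card) atTop atTop :=
    h1.comp (Nat.tendsto_div_const_atTop (by norm_num))
  obtain ⟨hD1, hD2, hD3⟩ := Pool.Agent.TH344.DS.excd
  refine tendsto_atTop_mono (fun D => ?_) h2
  have h3 : (Pool.Agent.TH344.DS.Dv D : Set (ℤ × ℤ)) = Pool.Agent.W307.RS.DvS 2 D := by
    unfold Pool.Agent.TH344.DS.Dv
    rw [dif_pos (hD1 D), Set.Finite.coe_toFinset]
  rw [FamD_eq, h3, ← Set.ncard_coe_finset]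
  exact Set.ncard_le_ncard (Pool.Agent.W307.RS.Cv_sub Pool.Agent.W554.RS.mdl 2 (D / 32) D
    (Nat.mul_div_le D 32)) (hD1 D)

/-- The local condition at a completion `K` of `ℚ`: there is a point `(x, y)`, `y ≠ 0`, of
`y² = x³ + A x + B` over `K` such that `(x - e) * d e` is a square for all the integer roots `e` of
`x³ + A x + B`. (Every class of `E(K) / 2 E(K)` contains a point with `y ≠ 0`.) -/
def Local (K : Type) [Field K] (A B : ℤ) (d : ℤ → ℤ) : Prop :=
  ∃ x y : K, y ≠ 0 ∧ y ^ 2 = x ^ 3 + A * x + B ∧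
    ∀ e : ℤ, e ^ 3 + A * e + B = 0 → IsSquare ((x - e) * d e)

/-- The 2-Selmer group of `y² = x³ + A x + B`, a curve with three integer roots. As `E[2]` is the
group of the families of signs with product one indexed by the roots, an element of the 2-Selmer
group is a family of classes of nonzero rational numbers modulo squares indexed by the roots `e`,
given by squarefree integers `d e` (`d e = 1` if `e` is not a root), which over `ℝ` and over `ℚ_[p]`
for all primes `p` is the family of the classes of `x - e` for a point of the curve. -/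
def Sel2 (A B : ℤ) : Set (ℤ → ℤ) :=
  {d | (∀ e, Squarefree (d e)) ∧ (∀ e : ℤ, e ^ 3 + A * e + B ≠ 0 → d e = 1) ∧ Local ℝ A B d ∧
    ∀ (p : ℕ) [Fact p.Prime], Local ℚ_[p] A B d}

section fields

variable (K : Type) [Field K] [NumberField K]

/-- the curve `y² = x³ + A x + B` over `K` -/
def EK (A B : ℤ) : WeierstrassCurve K := ⟨0, 0, 0, (A : K), (B : K)⟩

open Classical in
/-- the rank of the group `A(K)` of the abelian variety `A = ∏ E_i` -/
noncomputable def rankK {g : ℕ} (c : Fin g → ℤ × ℤ) : ℕ :=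
  Module.finrank ℤ ((i : Fin g) → (EK K (c i).1 (c i).2).toAffine.Point)

variable {K}

/-- `V` is an equation with coefficients in the ring of integers of the curve `W` over `K` -/
def ModelOf (W : WeierstrassCurve K) (V : WeierstrassCurve (𝓞 K)) : Prop :=
  ∃ C : WeierstrassCurve.VariableChange K, C • W = V.map (algebraMap (𝓞 K) K)

/-- `a_P = N(P) + 1 - #V(𝓞 K / P)`, that is `N(P)` minus the number of the affine solutions of the
Weierstrass equation modulo `P`; for a prime of multiplicative reduction this is `1` (split) or `-1`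
(non-split) -/
noncomputable def aP (V : WeierstrassCurve (𝓞 K)) (P : Ideal (𝓞 K)) : ℤ :=
  (Nat.card (𝓞 K ⧸ P) : ℤ) - Nat.card {z : (𝓞 K ⧸ P) × (𝓞 K ⧸ P) //
    (V.map (Ideal.Quotient.mk P)).toAffine.Equation z.1 z.2}

/-- the quadratic twist by `d` of the curve `V` (the curve `y² = x³ + b₂ x² + 8 b₄ x + 16 b₆`) -/
def twist (V : WeierstrassCurve (𝓞 K)) (d : 𝓞 K) : WeierstrassCurve K :=
  ⟨0, (d : K) * (V.b₂ : K), 0, 8 * (d : K) ^ 2 * (V.b₄ : K), 16 * (d : K) ^ 3 * (V.b₆ : K)⟩

open Classical in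
/-- `w` is the local root number of the elliptic curve `W` at the prime `P`, for three types of
reduction at `P`: good reduction (`1`), multiplicative reduction (`-a_P`), and, for `P` prime to `2`,
the quadratic twist by an integer `d` of odd valuation `n` at `P` of a curve with good reduction at `P`
(`1` if `-1` is a square modulo `P` and `-1` otherwise) -/
def LocalRoot (W : WeierstrassCurve K) (P : Ideal (𝓞 K)) (w : ℤ) : Prop :=
  (∃ V : WeierstrassCurve (𝓞 K), ModelOf W V ∧ V.Δ ∉ P ∧ w = 1) ∨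
  (∃ V : WeierstrassCurve (𝓞 K), ModelOf W V ∧ V.Δ ∈ P ∧ V.c₄ ∉ P ∧ w = -aP V P) ∨
  ((2 : 𝓞 K) ∉ P ∧ ∃ (V : WeierstrassCurve (𝓞 K)) (d : 𝓞 K) (n : ℕ), Odd n ∧ d ∈ P ^ n ∧
    d ∉ P ^ (n + 1) ∧ (∃ C : WeierstrassCurve.VariableChange K, C • W = twist V d) ∧ V.Δ ∉ P ∧
    w = if IsSquare (-1 : 𝓞 K ⧸ P) then 1 else -1)

/-- `w` is the product over all the places `v` of `K` of the local root numbers of the product of the
curves `W i`: the local root number is `(-1) ^ g` at the infinite places, at `P` it is the product of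
the local root numbers `f P i` of the curves, and it is `1` outside the finite set `S` -/
def RootProduct {g : ℕ} (W : Fin g → WeierstrassCurve K) (w : ℤ) : Prop :=
  ∃ f : Ideal (𝓞 K) → Fin g → ℤ,
    (∀ P : Ideal (𝓞 K), P.IsPrime → P ≠ ⊥ → ∀ i, LocalRoot (W i) P (f P i)) ∧
    ∃ S : Finset (Ideal (𝓞 K)), (∀ P ∈ S, P.IsPrime ∧ P ≠ ⊥) ∧
      (∀ P : Ideal (𝓞 K), P.IsPrime → P ≠ ⊥ → P ∉ S → ∏ i, f P i = 1) ∧
      w = ((-1) ^ g) ^ Nat.card (InfinitePlace K) * ∏ P ∈ S, ∏ i, f P i

end fields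

/-- for every finitely generated abelian group `A` with an action of `G` the ranks of the subgroups
`A ^ H` and `A ^ H'` have the same parity -/
def ParityPair {G : Type} [Group G] (H H' : Subgroup G) : Prop :=
  ∀ (A : Type) [AddCommGroup A] [Module.Finite ℤ A] [DistribMulAction G A],
    Even (Module.finrank ℤ (FixedPoints.addSubgroup H A) +
      Module.finrank ℤ (FixedPoints.addSubgroup H' A))

/-- the subgroup `Gal(L/K)` of `Gal(L/k)` -/
def galSub (k K L : Type) [Field k] [Field K] [Field L] [Algebra k K] [Algebra K L] [Algebra k L]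
    [IsScalarTower k K L] : Subgroup (L ≃ₐ[k] L) :=
  (AlgEquiv.restrictScalarsHom k : (L ≃ₐ[K] L) →* (L ≃ₐ[k] L)).range

/-- The class of number fields generated by `ℚ` under three operations: with `M` it contains
* the Galois extensions of `M` of odd degree;
* the extensions `K` of `M` of odd prime degree `p` which are contained in a Galois extension `L` of
  `M` such that `[L : K]` divides `(p - 1) / 2`;
* the fields `K` contained with `M` in a Galois extension `L` of a field `k ⊆ K`, `k ⊆ M`, such that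
  `Gal(L/M)`, `Gal(L/K)` is a parity pair of subgroups of `Gal(L/k)`. -/
inductive FromQ : (K : Type) → [Field K] → [NumberField K] → Prop
  | rat : FromQ ℚ
  | odd (M K : Type) [Field M] [NumberField M] [Field K] [NumberField K] [Algebra M K]
      [IsGalois M K] : FromQ M → Odd (Module.finrank M K) → FromQ K
  | prime (M K L : Type) [Field M] [NumberField M] [Field K] [NumberField K] [Field L]
      [NumberField L] [Algebra M K] [Algebra K L] [Algebra M L] [IsScalarTower M K L]
      [IsGalois M L] (p : ℕ) : FromQ M → p.Prime → p ≠ 2 → Module.finrank M K = p →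
      Module.finrank K L ∣ (p - 1) / 2 → FromQ K
  | pair (k M K L : Type) [Field k] [NumberField k] [Field M] [NumberField M] [Field K]
      [NumberField K] [Field L] [NumberField L] [Algebra k L] [Algebra k M] [Algebra M L]
      [Algebra k K] [Algebra K L] [IsScalarTower k M L] [IsScalarTower k K L] [IsGalois k L] :
      FromQ M → ParityPair (galSub k M L) (galSub k K L) → FromQ K

/-- The `g`-tuples of curves such that the 2-Selmer group of `E_i` over `ℚ` has order
`2 ^ (r_i + 2)`, `rk A(ℚ) ≤ ∑ r_i` for `A = ∏ E_i`, and for every number field `K` of the class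
`FromQ` the ranks of `A(K)` and `A(ℚ)` have the same parity and the product of the local root
numbers of `A` over `K` is `(-1) ^ ∑ r_i`. -/
def ParityOver {g : ℕ} (r : Fin g → ℕ) : Set (Fin g → ℤ × ℤ) :=
  {c | (∀ i, (Sel2 (c i).1 (c i).2).Finite ∧ (Sel2 (c i).1 (c i).2).ncard = 2 ^ (r i + 2)) ∧
    rankK ℚ c ≤ ∑ i, r i ∧
    ∀ (K : Type) [Field K] [NumberField K], FromQ K →
        Even (rankK K c + rankK ℚ c) ∧
        RootProduct (fun i => EK K (c i).1 (c i).2) ((-1) ^ ∑ i, r i)}

lemma map_eq (K : Type) [Field K] [NumberField K] (A B : ℤ) :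
    (⟨0, 0, 0, (A : ℚ), (B : ℚ)⟩ : WeierstrassCurve ℚ).map (algebraMap ℚ K) = EK K A B := by
  apply WeierstrassCurve.ext
  · exact map_zero _
  · exact map_zero _
  · exact map_zero _
  · exact map_intCast _ _
  · exact map_intCast _ _

lemma rank_sum (K : Type) [Field K] [NumberField K] {g : ℕ} {c : Fin g → ℤ × ℤ}
    (hD : ∀ i, 4 * (c i).1 ^ 3 + 27 * (c i).2 ^ 2 ≠ 0)
    (hT : ∀ i, ∃ f : ZMod 2 × ZMod 2 →+ (E (c i).1 (c i).2).toAffine.Point, Function.Injective f) :
    rankK K c = ∑ i, rankK K (fun _ : Fin 1 => c i) := by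
  classical
  have hfinK : ∀ i, Module.Finite ℤ (EK K (c i).1 (c i).2).toAffine.Point := fun i => by
    have h2 : (Pool.Agent.W307.RT.Sh (c i).1 (c i).2).baseChange K = EK K (c i).1 (c i).2 :=
      map_eq K (c i).1 (c i).2
    rw [← h2]
    exact Pool.Agent.Y667.OG.fin_K K (hD i) (Pool.Agent.W307.RT.tors_iff.2 (hT i))
  have e1 : rankK K c = ∑ i, Module.finrank ℤ (EK K (c i).1 (c i).2).toAffine.Point :=
    Pool.Agent.Y667.PA.rk_pi g (fun i => (EK K (c i).1 (c i).2).toAffine.Point)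
  rw [e1]
  refine sum_congr rfl fun i _ => ?_
  have e2 : rankK K (fun _ : Fin 1 => c i) =
      ∑ _j : Fin 1, Module.finrank ℤ (EK K (c i).1 (c i).2).toAffine.Point :=
    Pool.Agent.Y667.PA.rk_pi 1 (fun _ => (EK K (c i).1 (c i).2).toAffine.Point)
  rw [e2, Fin.sum_univ_one]

open Classical in
lemma rank_one_eq (K : Type) [Field K] [NumberField K] {c : ℤ × ℤ}
    (hD : 4 * c.1 ^ 3 + 27 * c.2 ^ 2 ≠ 0)
    (hT : ∃ f : ZMod 2 × ZMod 2 →+ (E c.1 c.2).toAffine.Point, Function.Injective f) :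
    rankK K (fun _ : Fin 1 => c) =
      Module.finrank ℤ ((Pool.Agent.W307.RT.Sh c.1 c.2).baseChange K).toAffine.Point := by
  have h2 : (Pool.Agent.W307.RT.Sh c.1 c.2).baseChange K = EK K c.1 c.2 := map_eq K c.1 c.2
  have hfin : Module.Finite ℤ (EK K c.1 c.2).toAffine.Point := by
    rw [← h2]
    exact Pool.Agent.Y667.OG.fin_K K hD (Pool.Agent.W307.RT.tors_iff.2 hT)
  have e2 : rankK K (fun _ : Fin 1 => c) =
      ∑ _j : Fin 1, Module.finrank ℤ (EK K c.1 c.2).toAffine.Point :=
    Pool.Agent.Y667.PA.rk_pi 1 (fun _ => (EK K c.1 c.2).toAffine.Point)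
  rw [e2, Fin.sum_univ_one, ← h2]

open Classical in
lemma rank_one_EK (K : Type) [Field K] [NumberField K] {c : ℤ × ℤ}
    (hD : 4 * c.1 ^ 3 + 27 * c.2 ^ 2 ≠ 0)
    (hT : ∃ f : ZMod 2 × ZMod 2 →+ (E c.1 c.2).toAffine.Point, Function.Injective f) :
    rankK K (fun _ : Fin 1 => c) = Module.finrank ℤ (EK K c.1 c.2).toAffine.Point := by
  have h2 : (Pool.Agent.W307.RT.Sh c.1 c.2).baseChange K = EK K c.1 c.2 := map_eq K c.1 c.2
  rw [rank_one_eq K hD hT, h2]

/-- the property of one curve -/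
def One (r : ℕ) (c : ℤ × ℤ) : Prop :=
  (Sel2 c.1 c.2).Finite ∧ (Sel2 c.1 c.2).ncard = 2 ^ (r + 2) ∧ rankK ℚ (fun _ : Fin 1 => c) ≤ r ∧
    ∀ (K : Type) [Field K] [NumberField K], FromQ K →
      Even (rankK K (fun _ : Fin 1 => c) + rankK ℚ (fun _ : Fin 1 => c)) ∧
        Pool.Agent.Y667.OG.RootNumberK (EK K c.1 c.2) ((-1) ^ r)

lemma good_of {g : ℕ} {r : Fin g → ℕ} {c : Fin g → ℤ × ℤ}
    (hD : ∀ i, 4 * (c i).1 ^ 3 + 27 * (c i).2 ^ 2 ≠ 0)
    (hT : ∀ i, ∃ f : ZMod 2 × ZMod 2 →+ (E (c i).1 (c i).2).toAffine.Point, Function.Injective f)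
    (h : ∀ i, One (r i) (c i)) : c ∈ ParityOver r := by
  classical
  refine ⟨fun i => ⟨(h i).1, (h i).2.1⟩, ?_, ?_⟩
  · rw [rank_sum ℚ hD hT]
    exact sum_le_sum fun i _ => (h i).2.2.1
  · intro K _ _ hK
    refine ⟨?_, ?_⟩
    · rw [rank_sum K hD hT, rank_sum ℚ hD hT, ← sum_add_distrib]
      exact even_sum _ fun i _ => ((h i).2.2.2 K hK).1
    · have h1 := Pool.Agent.Y667.OG.prodRootK (fun i => EK K (c i).1 (c i).2)
        (fun i => (-1 : ℤ) ^ r i) fun i => ((h i).2.2.2 K hK).2
      rw [prod_pow_eq_pow_sum] at h1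
      exact h1

open Classical in
/-- the parities over the fields of the class -/
lemma same_of_fromQ {c : ℤ × ℤ} {S : Finset ℕ} {e : ℕ → ℤ}
    (hD : 4 * c.1 ^ 3 + 27 * c.2 ^ 2 ≠ 0)
    (hT : Pool.Agent.W307.RT.HasT 2 (Pool.Agent.W307.RT.Sh c.1 c.2))
    (hS : Pool.Agent.K3h18.PX.Ok S e)
    (K : Type) [Field K] [NumberField K] (h : FromQ K) :
    Pool.Agent.K3h18.PX.Same c S e ℚ K := by
  have key : ∀ (M K : Type) [Field M] [NumberField M] [Field K] [NumberField K],
      Pool.Agent.K3h18.PX.Same c S e M K → Pool.Agent.K3h18.PX.Same c S e ℚ M →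
      Pool.Agent.K3h18.PX.Same c S e ℚ K := fun M K _ _ _ _ h1 h2 =>
    Pool.Agent.K3h18.PQ.same_trans h2 h1
  induction h with
  | rat => exact Pool.Agent.K3h18.PQ.same_refl
  | odd M K _ hodd ih =>
    exact key M K (Pool.Agent.K3h18.PX.same_of M M K K
      (Pool.Agent.K3h18.PX.pp_odd M K hodd) hD hT hS) ih
  | prime M K L p _ hp hp2 hd hL ih =>
    exact key M K (Pool.Agent.K3h18.PX.same_of M M K L
      (Pool.Agent.K3h18.PQ.pp_prime M K L p hp hp2 hd hL) hD hT hS) ih
  | pair k M K L _ hp ih =>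
    exact key M K (Pool.Agent.K3h18.PX.same_of k M K L hp hD hT hS) ih

lemma dec_eq {K : Type} [Field K] (W : WeierstrassCurve K) (d1 d2 : DecidableEq K) :
    (letI := d1; Module.finrank ℤ W.toAffine.Point) =
      (letI := d2; Module.finrank ℤ W.toAffine.Point) := by
  rw [Subsingleton.elim d1 d2]

/-- from the property of the library -/
lemma one_of {r : ℕ} {c : ℤ × ℤ} (hD : 4 * c.1 ^ 3 + 27 * c.2 ^ 2 ≠ 0)
    (hT : ∃ f : ZMod 2 × ZMod 2 →+ (E c.1 c.2).toAffine.Point, Function.Injective f)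
    (h : Pool.Agent.K3h18.PQ.TQ r c) : One r c := by
  classical
  have hT' := Pool.Agent.W307.RT.tors_iff.2 hT
  have hrQ : rankK ℚ (fun _ : Fin 1 => c) =
      Module.finrank ℤ (Pool.Agent.W307.RT.Sh c.1 c.2).toAffine.Point := by
    rw [rank_one_EK ℚ hD hT]
    have h2 : EK ℚ c.1 c.2 = Pool.Agent.W307.RT.Sh c.1 c.2 := rfl
    rw [h2]
    exact dec_eq _ _ _
  obtain ⟨⟨h1, h2, -⟩, S, e, hok, hroot, hev⟩ := h
  refine ⟨h1, h2, ?_, ?_⟩
  · rw [hrQ]
    exact Pool.Agent.Y667.MT.rank_le hD hT' h1 h2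
  · intro K _ _ hK
    have h3 := same_of_fromQ hD hT' hok K hK
    refine ⟨?_, ?_⟩
    · rw [rank_one_eq K hD hT, rank_one_eq ℚ hD hT, add_comm]
      exact h3.rk
    · have h5 := hroot K
      have h6 : (-1 : ℤ) ^ Pool.Agent.K3h18.PX.ee K S e = (-1) ^ r := by
        rw [← hev]
        exact (Pool.Agent.Y667.PA.npow_eq h3.ex).symm
      rw [h6, map_eq] at h5
      exact h5

lemma pi_eq {α : Type} [DecidableEq α] (g : ℕ) (F : Finset α) :
    {c : Fin g → α | ∀ i, c i ∈ (F : Set α)} =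
      ((Fintype.piFinset fun _ : Fin g => F : Finset (Fin g → α)) : Set (Fin g → α)) := by
  ext c
  rw [mem_coe, Fintype.mem_piFinset]
  exact Iff.rfl

lemma pi_ncard {α : Type} [DecidableEq α] (g : ℕ) (F : Finset α) :
    {c : Fin g → α | ∀ i, c i ∈ (F : Set α)}.ncard = F.card ^ g := by
  rw [pi_eq, Set.ncard_coe_finset, Fintype.card_piFinset_const]

/-- from curves to tuples -/
lemma tuples_of {I : ℤ × ℤ → ℕ → Prop} {g Z : ℕ} {δ : Fin g → ℝ} (hδ : ∀ i, 0 ≤ δ i)
    (F : Finset (ℤ × ℤ)) (hF : Fam I Z = (F : Set (ℤ × ℤ))) (P : Fin g → ℤ × ℤ → Prop)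
    [∀ i, DecidablePred (P i)] (h1 : 1 ≤ F.card)
    (h : ∀ i, δ i * (F.card : ℝ) ≤ ((F.filter (P i)).card : ℝ)) (S : Set (Fin g → ℤ × ℤ))
    (hS : ∀ c : Fin g → ℤ × ℤ, (∀ i, c i ∈ Fam I Z ∧ P i (c i)) → c ∈ S) :
    ∏ i, δ i ≤ proportion I g S Z := by
  classical
  have e1 : Tuples I g Z = {c : Fin g → ℤ × ℤ | ∀ i, c i ∈ (F : Set (ℤ × ℤ))} := by
    unfold Tuples
    rw [hF]
  have h2 : (0 : ℝ) < (F.card : ℝ) := by exact_mod_cast h1
  unfold proportion
  rw [e1, pi_ncard, Nat.cast_pow, le_div_iff₀ (by positivity)]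
  calc (∏ i, δ i) * (F.card : ℝ) ^ g = ∏ i, (δ i * (F.card : ℝ)) := by
        rw [prod_mul_distrib, prod_const, card_univ, Fintype.card_fin]
    _ ≤ ∏ i, (((F.filter (P i)).card : ℝ)) :=
        prod_le_prod (fun i _ => mul_nonneg (hδ i) h2.le) fun i _ => h i
    _ = (((Fintype.piFinset fun i : Fin g => F.filter (P i)).card : ℕ) : ℝ) := by
        rw [Fintype.card_piFinset, Nat.cast_prod]
    _ ≤ _ := by
        rw [← Set.ncard_coe_finset]
        refine Nat.cast_le.2 (Set.ncard_le_ncard (fun c hc => ?_) (Set.Finite.inter_of_left (by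
          rw [pi_eq]
          exact finite_toSet _) _))
        have h3 : ∀ i, c i ∈ F ∧ P i (c i) := fun i => by
          have := (Fintype.mem_piFinset.1 (mem_coe.1 hc)) i
          rw [mem_filter] at this
          exact this
        refine ⟨fun i => mem_coe.2 (h3 i).1, hS c fun i => ⟨?_, (h3 i).2⟩⟩
        rw [hF]
        exact mem_coe.2 (h3 i).1

/-- **Theorem.** Let `g ≥ 0` and `r_1, ..., r_g ≥ 0`. Order the elliptic curves over `ℚ` with full
rational 2-torsion by the naive height or by the absolute value of the minimal discriminant. For both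
orderings there are finitely many tuples of `g` curves of size at most `Z`, the number of the curves
tends to infinity with `Z`, and for some `δ > 0` and all large `Z` at least a proportion `δ` of the
`g`-tuples of curves of size at most `Z` has 2-Selmer groups over `ℚ` of orders `2 ^ (r_i + 2)`,
`rk A(ℚ) ≤ ∑ r_i` (`A = ∏ E_i`) and, over every number field `K` of the class `FromQ`, `rk A(K)` of
the parity of `rk A(ℚ)` and `w(A/K) = (-1) ^ ∑ r_i`. For `r_1 = ... = r_g = 0` this is the parity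
conjecture for `A` over all these fields. -/
theorem result (g : ℕ) (r : Fin g → ℕ) : ∀ I : ℤ × ℤ → ℕ → Prop, I = HeightLe ∨ I = DiscLe →
    (∀ Z : ℕ, (Tuples I g Z).Finite) ∧ Tendsto (fun Z : ℕ => (Fam I Z).ncard) atTop atTop ∧
    ∃ δ : ℝ, 0 < δ ∧ ∀ᶠ Z : ℕ in atTop, δ ≤ proportion I g (ParityOver r) Z := by
  classical
  intro I hI
  have hsub : ∀ (Z : ℕ) (c : Fin g → ℤ × ℤ),
      (∀ i, c i ∈ Fam I Z ∧ Pool.Agent.K3h18.PQ.TQ (r i) (c i)) → c ∈ ParityOver r :=
    fun Z c hc => good_of (fun i => (hc i).1.1) (fun i => (hc i).1.2.2.1) fun i =>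
      one_of (hc i).1.1 (hc i).1.2.2.1 (hc i).2
  rcases hI with rfl | rfl
  · refine ⟨fun Z => ?_, tendstoH, ?_⟩
    · unfold Tuples
      rw [FamH_eq, pi_eq]
      exact finite_toSet _
    · have h0 := fun i => Pool.Agent.K3h18.PQ.curvesQ (r i)
      choose δ hδ H0 h using h0
      refine ⟨∏ i, δ i, prod_pos fun i _ => hδ i, ?_⟩
      filter_upwards [eventually_ge_atTop (univ.sup H0), tendstoH.eventually_ge_atTop 1] with H hH hH1
      have e1 : (Fam HeightLe H).ncard = (Pool.Agent.W307.RT.Cv 2 H).card := by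
        rw [FamH_eq, Set.ncard_coe_finset]
      rw [e1] at hH1
      refine tuples_of (fun i => (hδ i).le) _ (FamH_eq H)
        (fun i => Pool.Agent.K3h18.PQ.TQ (r i)) hH1 (fun i => ?_) _ (hsub H)
      convert h i H ((le_sup (mem_univ i)).trans hH)
  · refine ⟨fun Z => ?_, tendstoD, ?_⟩
    · unfold Tuples
      rw [FamD_eq, pi_eq]
      exact finite_toSet _
    · have h0 := fun i => Pool.Agent.Y667.RP.disc_of_height (Pool.Agent.K3h18.PQ.TQ (r i))
        (Pool.Agent.K3h18.PQ.curvesQ (r i))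
      choose δ hδ H0 h using h0
      refine ⟨∏ i, δ i, prod_pos fun i _ => hδ i, ?_⟩
      filter_upwards [eventually_ge_atTop (univ.sup H0), tendstoD.eventually_ge_atTop 1] with H hH hH1
      have e1 : (Fam DiscLe H).ncard = (Pool.Agent.TH344.DS.Dv H).card := by
        rw [FamD_eq, Set.ncard_coe_finset]
      rw [e1] at hH1
      refine tuples_of (fun i => (hδ i).le) _ (FamD_eq H)
        (fun i => Pool.Agent.K3h18.PQ.TQ (r i)) hH1 (fun i => ?_) _ (hsub H)
      convert h i H ((le_sup (mem_univ i)).trans hH)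

end Pool.Agent.Results.MP_ac3185_nt.PrimeDegreeFields
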